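import Pool.Agent.helper37.NE.SpecC

set_option autoImplicit false

/-!
# MP_baa4d7_al, THEOREM NE, row YNX
-/

namespace Pool.Agent.NE

open Pool.Agent.helper58.DC Pool.Agent.DI Pool.Agent.GR Pool.Agent.OB Pool.Agent.DR Pool.Agent.FI Pool.Agent.FI3 Pool.Agent.FI4 Pool.Agent.FI4I Pool.Agent.LE Pool.Agent.L5 Pool.Agent.NAB Pool.Agent.ND

theorem YNX (hYR0 : YR0_stmt) (hYNG : YNG_stmt) (hYTC : YTC_stmt)
    (hST : Pool.Agent.helper58.DC.ST_stmt) : YNX_stmt := by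
  intro p e m M hS h1 h2 G E A _ _ _ _ _ X hOp χ hχ z x hU d
  by_contra hne
  have hSt := hST G E A X p M χ hχ d hne
  obtain ⟨t1, t2, t3, t4⟩ := hYTC p e m M hS G E A X χ hχ
  haveI : Fact p.Prime := ⟨hS.pr⟩
  apply hne
  apply hYR0 G E A X p M hS.max hS.mem hOp χ hχ hSt d
  exact hYNG p e m M hS h1 h2 E X.inc.range t3 (ext0 X.inc χ) t1 (t4 hSt) (X.inc z) (X.inc x)
    (t2 z x hU) d

end Pool.Agent.NE
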